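import Pool.Agent.POG.Main2
import Pool.Agent.POG.ORD
import Pool.Agent.POG.DEP
import Pool.Agent.POG.RKS
import Pool.Agent.POG.WDC
import Pool.Agent.POG.CHN
import Pool.Agent.POG.TRE
import Pool.Agent.POG.SUP
import Pool.Agent.POG.CUT
import Pool.Agent.POG.QSP
import Pool.Agent.POG.LND
import Pool.Agent.POG.KER
import Pool.Agent.POG.SPN
import Pool.Agent.POG.ROW
import Pool.Agent.POG.FIB
import Pool.Agent.POG.BAD
import Pool.Agent.POG.EXI
import Pool.Agent.POG.CNF
import Pool.Agent.POG.FRM

/-!
# #SAT has no short certificates by deterministic decomposable circuits, on either side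

The PP-complete problem is to decide whether a formula `F` has at least `i` models. A certificate is a
deterministic decomposable circuit with negations (d-D circuit, POG; these are the certificates of the
CPOG proof system), whose models can be counted quickly: below `F` with at least `i` models, or above
`F` with fewer than `i` models. The check that the circuit is below or above `F` is given for free.
More generally the certificate may be a linear combination of the functions of such circuits
(inclusion and exclusion).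
-/

set_option autoImplicit false

namespace Pool.Agent.Results.MP_153864_lc.CountingCertificates

open Pool.Agent.POG (DD CNF SB R)

open Classical in
/-- The number of the inputs with the property `P`. -/
noncomputable def cnt {n : ℕ} (P : (Fin n → Bool) → Prop) : ℕ := (Finset.univ.filter P).card

open Classical in
/-- The function of the formula `F`, as a real number `0` or `1`. -/
noncomputable def fn {n : ℕ} (F : CNF n) (x : Fin n → Bool) : ℝ := if F.Sat x then 1 else 0

/-- The function `f` certifies that `F` has at least `i` models. -/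
def AtLeast {n : ℕ} (F : CNF n) (f : (Fin n → Bool) → Bool) (i : ℕ) : Prop :=
  (∀ x, f x = true → F.Sat x) ∧ i ≤ cnt fun x => f x = true

/-- The function `f` certifies that `F` has fewer than `i` models. -/
def Fewer {n : ℕ} (F : CNF n) (f : (Fin n → Bool) → Bool) (i : ℕ) : Prop :=
  (∀ x, F.Sat x → f x = true) ∧ cnt (fun x => f x = true) < i

theorem cnt_eq {n : ℕ} (P : (Fin n → Bool) → Prop) [DecidablePred P] :
    cnt P = (Finset.univ.filter P).card := by
  unfold cnt
  congr 1
  ext x
  simp

theorem cnt_sum {n : ℕ} (f : (Fin n → Bool) → Bool) :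
    (cnt (fun x => f x = true) : ℝ) = ∑ x, R (f x) := by
  classical
  rw [cnt_eq, Finset.card_filter]
  push_cast
  rfl

theorem cnt_fn {n : ℕ} (F : CNF n) : (cnt (fun x => F.Sat x) : ℝ) = ∑ x, fn F x := by
  classical
  rw [cnt_eq, Finset.card_filter]
  push_cast
  unfold fn
  refine Finset.sum_congr rfl fun x _ => ?_
  by_cases h : F.Sat x <;> simp [h]

/-- **Theorem.** There are constants `c > 0`, `w`, `K` such that for all large `n` there is a
satisfiable formula `F` in conjunctive normal form with `n` variables, at most `K n` clauses, each with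
at most `w` literals, and with the following properties; `#F` is the number of its models.
(1) Let a d-D circuit with `G` gates and multiplicity bound `B` have a gate which certifies that `F`
has at least `i` models, `i ≥ 2 ^ (-c n) #F`, or that `F` has fewer than `i` models,
`i ≤ (2 - 2 ^ (-c n)) #F`. Then `G B ≥ 2 ^ (c n)`.
(2) Let `h` be a linear combination, with coefficients `lam j`, of functions computed by d-D circuits
with `G j` gates and multiplicity bounds `B j`, whose `L¹` distance to `F` is at most
`(1 - 2 ^ (-c n)) #F` (the distance of the constant `0` is `#F`). Then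
`∑ j, |lam j| (G j) (B j) ≥ 2 ^ (c n)`.
`B` is a multiplicity bound if it is at least the number of the sets of at most `k` of `m` elements and
there are at most `m` large NOT gates (above more than `2 n / 3` variables), at most `k` on a path; or if
it is at least `2 ^ d` and there are at most `d` critical OR gates on a path, with any number of NOT
gates (an OR gate is critical if it is large and does not remain deterministic if all large NOT gates
are replaced by the constant `true`); or if it is at least `1` and the circuit is tree-like, with any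
number of NOT gates. -/
theorem result :
    ∃ (c : ℝ) (w K n₀ : ℕ), 0 < c ∧ ∀ n : ℕ, n₀ ≤ n → ∃ F : CNF n,
      (∀ cl ∈ F, cl.card ≤ w) ∧ F.card ≤ K * n ∧ 0 < cnt (fun x => F.Sat x) ∧
      (∀ (G : ℕ) (C : DD n G) (g : Fin G) (B : ℝ) (i : ℕ), C.Mult B →
        ((2 : ℝ) ^ (-(c * n)) * (cnt (fun x => F.Sat x) : ℝ) ≤ i ∧ AtLeast F (C.val g) i ∨
          (i : ℝ) ≤ (2 - (2 : ℝ) ^ (-(c * n))) * (cnt (fun x => F.Sat x) : ℝ) ∧
            Fewer F (C.val g) i) →
        (2 : ℝ) ^ (c * n) ≤ G * B) ∧
      ∀ (s : ℕ) (G : Fin s → ℕ) (C : ∀ j, DD n (G j)) (g : ∀ j, Fin (G j)) (lam B : Fin s → ℝ),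
        (∀ j, (C j).Mult (B j)) →
        ∑ x, |(∑ j, lam j * R ((C j).val (g j) x)) - fn F x| ≤
          (1 - (2 : ℝ) ^ (-(c * n))) * (cnt (fun x => F.Sat x) : ℝ) →
        (2 : ℝ) ^ (c * n) ≤ ∑ j, |lam j| * (G j * B j) := by
  classical
  obtain ⟨c, w, K, n₀, hc, H⟩ := Pool.Agent.POG.Asm.main2_of Pool.Agent.POG.t_DEP
    Pool.Agent.POG.t_RKS Pool.Agent.POG.t_WDC Pool.Agent.POG.t_CHN Pool.Agent.POG.t_TRE
    Pool.Agent.POG.t_SUP Pool.Agent.POG.t_CUT Pool.Agent.POG.t_QSP Pool.Agent.POG.t_LND
    Pool.Agent.POG.t_KER Pool.Agent.POG.t_SPN Pool.Agent.POG.t_ROW Pool.Agent.POG.t_FIB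
    Pool.Agent.POG.t_BAD Pool.Agent.POG.t_EXI Pool.Agent.POG.t_CNF Pool.Agent.POG.t_FRM
    Pool.Agent.POG.t_ORD
  refine ⟨c, w, K, n₀, hc, fun n hn => ?_⟩
  obtain ⟨F, h1, h2, h3, h4⟩ := H n hn
  have hF : (cnt (fun x => F.Sat x) : ℝ) = ((Finset.univ.filter fun x => F.Sat x).card : ℝ) := by
    rw [cnt_eq]
  have key : ∀ (s : ℕ) (G : Fin s → ℕ) (C : ∀ j, DD n (G j)) (g : ∀ j, Fin (G j))
      (lam B : Fin s → ℝ), (∀ j, (C j).Mult (B j)) →
      ∑ x, |(∑ j, lam j * R ((C j).val (g j) x)) - fn F x| ≤
          (1 - (2 : ℝ) ^ (-(c * n))) * (cnt (fun x => F.Sat x) : ℝ) →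
      (2 : ℝ) ^ (c * n) ≤ ∑ j, |lam j| * (G j * B j) := by
    intro s G C g lam B hB h
    refine h4 s G C g lam B hB ?_
    rw [hF] at h
    unfold fn at h
    convert h
  refine ⟨F, h1, h2, by rw [cnt_eq]; convert h3, ?_, key⟩
  intro G C g B i hB hi
  have k1 := key 1 (fun _ => G) (fun _ => C) (fun _ => g) (fun _ => 1) (fun _ => B) (fun _ => hB)
  simp only [Finset.univ_unique, Finset.sum_singleton, abs_one, one_mul] at k1
  refine k1 ?_
  rcases hi with ⟨hi, hf, hc1⟩ | ⟨hi, hf, hc1⟩
  · have e : ∑ x, |R (C.val g x) - fn F x| =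
        (cnt (fun x => F.Sat x) : ℝ) - (cnt (fun x => C.val g x = true) : ℝ) := by
      rw [cnt_sum, cnt_fn, ← Finset.sum_sub_distrib]
      refine Finset.sum_congr rfl fun x _ => ?_
      rw [abs_sub_comm, abs_of_nonneg]
      unfold fn R
      by_cases hx : C.val g x = true
      · rw [if_pos hx, if_pos (hf x hx), sub_self]
      · rw [if_neg hx]
        split_ifs <;> norm_num
    rw [e]
    have : (i : ℝ) ≤ (cnt (fun x => C.val g x = true) : ℝ) := by exact_mod_cast hc1
    linarith
  · have e : ∑ x, |R (C.val g x) - fn F x| =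
        (cnt (fun x => C.val g x = true) : ℝ) - (cnt (fun x => F.Sat x) : ℝ) := by
      rw [cnt_sum, cnt_fn, ← Finset.sum_sub_distrib]
      refine Finset.sum_congr rfl fun x _ => ?_
      rw [abs_of_nonneg]
      unfold fn R
      by_cases hx : F.Sat x
      · rw [if_pos hx, if_pos (hf x hx), sub_self]
      · rw [if_neg hx]
        split_ifs <;> norm_num
    rw [e]
    have : (cnt (fun x => C.val g x = true) : ℝ) < i := by exact_mod_cast hc1
    linarith

end Pool.Agent.Results.MP_153864_lc.CountingCertificates
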